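import Mathlib
import Pool.Agent.H27.HiggsBaire

set_option autoImplicit false

namespace Pool.Agent.Results.MP_3b1797_co.Counter

/-- `K` meets every maximal chain. -/
def IsCutset {P : Type} [PartialOrder P] (K : Set P) : Prop :=
  ∀ C : Set P, IsMaxChain (· ≤ ·) C → (K ∩ C).Nonempty

/-- a cutset no element of which can be removed -/
def IsMinimalCutset {P : Type} [PartialOrder P] (K : Set P) : Prop :=
  IsCutset K ∧ ∀ x ∈ K, ¬ IsCutset (K \ {x})

/-- regular ordered sets -/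
def Regular (P : Type) [PartialOrder P] : Prop :=
  ∀ C : Set P, IsChain (· ≤ ·) C → C.Nonempty →
    (∃ s, IsLUB C s ∧ ∀ x, x < s → ∃ c ∈ C, x < c) ∧
    (∃ i, IsGLB C i ∧ ∀ x, i < x → ∃ c ∈ C, c < x)

/-- `P` contains an N -/
def ContainsN (P : Type) [PartialOrder P] : Prop :=
  ∃ a b c d : P, a ≠ b ∧ a ≠ c ∧ a ≠ d ∧ b ≠ c ∧ b ≠ d ∧ c ≠ d ∧
    a < c ∧ b < c ∧ b < d ∧ (¬ ∃ z, b < z ∧ z < c) ∧
    ¬ a ≤ b ∧ ¬ b ≤ a ∧ ¬ a ≤ d ∧ ¬ d ≤ a ∧ ¬ c ≤ d ∧ ¬ d ≤ c

inductive Q : Type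
  | bot : Q
  | top : Q
  | mid (m : ℤ) (x : ℝ) (p : LowerSet ℝ) : Q

open Q

def lt' : Q → Q → Prop
  | bot, bot => False
  | bot, top => True
  | bot, mid _ _ _ => True
  | top, _ => False
  | mid _ _ _, bot => False
  | mid _ _ _, top => True
  | mid m x p, mid m' x' p' =>
      (m = m' ∧ x = x' ∧ p < p') ∨ (m' = m + 1 ∧ x' ∉ p ∧ x ∈ p') ∨ m + 2 ≤ m'

instance : IsStrictOrder Q lt' where
  irrefl := by
    intro a
    cases a <;> simp [lt']
  trans := by
    intro a b c h1 h2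
    cases a <;> cases b <;> cases c <;> simp only [lt'] at h1 h2 ⊢
    rename_i m x p m' x' p' m'' x'' p''
    rcases h1 with ⟨rfl, rfl, h1⟩ | ⟨rfl, h1, h1'⟩ | h1 <;>
      rcases h2 with ⟨rfl, rfl, h2⟩ | ⟨rfl, h2, h2'⟩ | h2
    · exact Or.inl ⟨rfl, rfl, h1.trans h2⟩
    · exact Or.inr (Or.inl ⟨rfl, fun h => h2 (h1.le h), h2'⟩)
    · exact Or.inr (Or.inr h2)
    · exact Or.inr (Or.inl ⟨rfl, h1, h2.le h1'⟩)
    · exact Or.inr (Or.inr (by omega))
    · exact Or.inr (Or.inr (by omega))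
    · exact Or.inr (Or.inr h1)
    · exact Or.inr (Or.inr (by omega))
    · exact Or.inr (Or.inr (by omega))

instance : PartialOrder Q := partialOrderOfSO lt'

lemma lt_def (a b : Q) : a < b ↔ lt' a b := Iff.rfl

lemma mid_lt {m m' : ℤ} {x x' : ℝ} {p p' : LowerSet ℝ} : mid m x p < mid m' x' p' ↔
    (m = m' ∧ x = x' ∧ p < p') ∨ (m' = m + 1 ∧ x' ∉ p ∧ x ∈ p') ∨ m + 2 ≤ m' := Iff.rfl

lemma mid_le {m m' : ℤ} {x x' : ℝ} {p p' : LowerSet ℝ} : mid m x p ≤ mid m' x' p' ↔
    (m = m' ∧ x = x' ∧ p ≤ p') ∨ (m' = m + 1 ∧ x' ∉ p ∧ x ∈ p') ∨ m + 2 ≤ m' := by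
  rw [le_iff_eq_or_lt, mid_lt, le_iff_eq_or_lt (a := p), mid.injEq]
  tauto

lemma bot_lt_mid {m : ℤ} {x : ℝ} {p : LowerSet ℝ} : bot < mid m x p := trivial
lemma mid_lt_top {m : ℤ} {x : ℝ} {p : LowerSet ℝ} : mid m x p < top := trivial
lemma bot_lt_top' : bot < top := trivial
lemma not_top_lt (a : Q) : ¬ top < a := by cases a <;> exact fun h => h
lemma not_lt_bot' (a : Q) : ¬ a < bot := by cases a <;> exact fun h => h
lemma le_top' (a : Q) : a ≤ top := by
  cases a
  · exact bot_lt_top'.le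
  · exact le_rfl
  · exact mid_lt_top.le
lemma bot_le' (a : Q) : bot ≤ a := by
  cases a
  · exact le_rfl
  · exact bot_lt_top'.le
  · exact bot_lt_mid.le
lemma not_mid_le_bot {m : ℤ} {x : ℝ} {p : LowerSet ℝ} : ¬ mid m x p ≤ bot :=
  fun h => absurd (lt_of_lt_of_le bot_lt_mid h) (lt_irrefl _)
lemma not_top_le_mid {m : ℤ} {x : ℝ} {p : LowerSet ℝ} : ¬ top ≤ mid m x p :=
  fun h => absurd (lt_of_le_of_lt h mid_lt_top) (lt_irrefl _)

lemma sup_part (C : Set Q) (hC : IsChain (· ≤ ·) C) (_hne : C.Nonempty) :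
    ∃ s, IsLUB C s ∧ ∀ x, x < s → ∃ c ∈ C, x < c := by
  by_cases ht : top ∈ C
  · exact ⟨top, ⟨fun c _ => le_top' c, fun u hu => hu ht⟩, fun x hx => ⟨top, ht, hx⟩⟩
  by_cases hm : ∃ m, ∃ x p, mid m x p ∈ C
  swap
  · refine ⟨bot, ⟨fun c hc => ?_, fun u _ => bot_le' u⟩, fun x hx => absurd hx (not_lt_bot' x)⟩
    cases c
    · exact le_rfl
    · exact absurd hc ht
    · exact absurd ⟨_, _, _, hc⟩ hm
  by_cases hb : ∃ b : ℤ, ∀ m, (∃ x p, mid m x p ∈ C) → m ≤ b
  swap
  · push Not at hb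
    refine ⟨top, ⟨fun c _ => le_top' c, fun u hu => ?_⟩, fun w hw => ?_⟩
    · cases u with
      | bot =>
        obtain ⟨m, x, p, h⟩ := hm
        exact absurd (hu h) not_mid_le_bot
      | top => exact le_rfl
      | mid m x p =>
        obtain ⟨m', ⟨x', p', h⟩, hlt⟩ := hb m
        have := mid_le.1 (hu h)
        omega
    · cases w with
      | bot =>
        obtain ⟨m, x, p, h⟩ := hm
        exact ⟨_, h, bot_lt_mid⟩
      | top => exact absurd hw (lt_irrefl _)
      | mid m x p =>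
        obtain ⟨m', ⟨x', p', h⟩, hlt⟩ := hb (m + 1)
        exact ⟨_, h, mid_lt.2 (Or.inr (Or.inr (by omega)))⟩
  obtain ⟨m0, ⟨x0, p0, h0⟩, hmax⟩ := Int.exists_greatest_of_bdd hb hm
  let S : Set (LowerSet ℝ) := {p | mid m0 x0 p ∈ C}
  have hS : ∀ p, mid m0 x0 p ∈ C → p ≤ sSup S := fun p hp => le_sSup hp
  refine ⟨mid m0 x0 (sSup S), ⟨fun c hc => ?_, fun u hu => ?_⟩, fun w hw => ?_⟩
  · cases c with
    | bot => exact bot_le' _
    | top => exact absurd hc ht
    | mid m x p =>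
      have h1 := hmax m ⟨x, p, hc⟩
      rcases hC.total hc h0 with h | h
      · exact h.trans (mid_le.2 (Or.inl ⟨rfl, rfl, hS _ h0⟩))
      · rcases mid_le.1 h with ⟨rfl, rfl, -⟩ | h | h
        · exact mid_le.2 (Or.inl ⟨rfl, rfl, hS _ hc⟩)
        · omega
        · omega
  · cases u with
    | bot => exact absurd (hu h0) not_mid_le_bot
    | top => exact le_top' _
    | mid m x p =>
      rcases mid_le.1 (hu h0) with ⟨rfl, rfl, -⟩ | ⟨rfl, -, h⟩ | h
      · refine mid_le.2 (Or.inl ⟨rfl, rfl, sSup_le fun q hq => ?_⟩)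
        rcases mid_le.1 (hu hq) with ⟨-, -, h⟩ | h | h
        · exact h
        · omega
        · omega
      · refine mid_le.2 (Or.inr (Or.inl ⟨rfl, fun hx => ?_, h⟩))
        obtain ⟨q, hq, hxq⟩ := LowerSet.mem_sSup_iff.1 hx
        rcases mid_le.1 (hu hq) with h | ⟨-, h, -⟩ | h
        · omega
        · exact h hxq
        · omega
      · exact mid_le.2 (Or.inr (Or.inr h))
  · cases w with
    | bot => exact ⟨_, h0, bot_lt_mid⟩
    | top => exact absurd hw (not_top_lt _)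
    | mid m x p =>
      rcases mid_lt.1 hw with ⟨rfl, rfl, h⟩ | ⟨rfl, h, h'⟩ | h
      · obtain ⟨q, hq, hpq⟩ := lt_sSup_iff.1 h
        exact ⟨_, hq, mid_lt.2 (Or.inl ⟨rfl, rfl, hpq⟩)⟩
      · obtain ⟨q, hq, hxq⟩ := LowerSet.mem_sSup_iff.1 h'
        exact ⟨_, hq, mid_lt.2 (Or.inr (Or.inl ⟨rfl, h, hxq⟩))⟩
      · exact ⟨_, h0, mid_lt.2 (Or.inr (Or.inr h))⟩

lemma inf_part (C : Set Q) (hC : IsChain (· ≤ ·) C) (_hne : C.Nonempty) :
    ∃ s, IsGLB C s ∧ ∀ x, s < x → ∃ c ∈ C, c < x := by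
  by_cases ht : bot ∈ C
  · exact ⟨bot, ⟨fun c _ => bot_le' c, fun u hu => hu ht⟩, fun x hx => ⟨bot, ht, hx⟩⟩
  by_cases hm : ∃ m, ∃ x p, mid m x p ∈ C
  swap
  · refine ⟨top, ⟨fun c hc => ?_, fun u _ => le_top' u⟩, fun x hx => absurd hx (not_top_lt x)⟩
    cases c
    · exact absurd hc ht
    · exact le_rfl
    · exact absurd ⟨_, _, _, hc⟩ hm
  by_cases hb : ∃ b : ℤ, ∀ m, (∃ x p, mid m x p ∈ C) → b ≤ m
  swap
  · push Not at hb
    refine ⟨bot, ⟨fun c _ => bot_le' c, fun u hu => ?_⟩, fun w hw => ?_⟩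
    · cases u with
      | top =>
        obtain ⟨m, x, p, h⟩ := hm
        exact absurd (hu h) not_top_le_mid
      | bot => exact le_rfl
      | mid m x p =>
        obtain ⟨m', ⟨x', p', h⟩, hlt⟩ := hb m
        have := mid_le.1 (hu h)
        omega
    · cases w with
      | top =>
        obtain ⟨m, x, p, h⟩ := hm
        exact ⟨_, h, mid_lt_top⟩
      | bot => exact absurd hw (lt_irrefl _)
      | mid m x p =>
        obtain ⟨m', ⟨x', p', h⟩, hlt⟩ := hb (m - 1)
        exact ⟨_, h, mid_lt.2 (Or.inr (Or.inr (by omega)))⟩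
  obtain ⟨m0, ⟨x0, p0, h0⟩, hmax⟩ := Int.exists_least_of_bdd hb hm
  let S : Set (LowerSet ℝ) := {p | mid m0 x0 p ∈ C}
  have hS : ∀ p, mid m0 x0 p ∈ C → sInf S ≤ p := fun p hp => sInf_le hp
  refine ⟨mid m0 x0 (sInf S), ⟨fun c hc => ?_, fun u hu => ?_⟩, fun w hw => ?_⟩
  · cases c with
    | top => exact le_top' _
    | bot => exact absurd hc ht
    | mid m x p =>
      have h1 := hmax m ⟨x, p, hc⟩
      rcases hC.total h0 hc with h | h
      · exact (mid_le.2 (Or.inl ⟨rfl, rfl, hS _ h0⟩)).trans h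
      · rcases mid_le.1 h with ⟨rfl, rfl, -⟩ | h | h
        · exact mid_le.2 (Or.inl ⟨rfl, rfl, hS _ hc⟩)
        · omega
        · omega
  · cases u with
    | top => exact absurd (hu h0) not_top_le_mid
    | bot => exact bot_le' _
    | mid m x p =>
      rcases mid_le.1 (hu h0) with ⟨rfl, rfl, -⟩ | ⟨rfl, h, -⟩ | h
      · refine mid_le.2 (Or.inl ⟨rfl, rfl, le_sInf fun q hq => ?_⟩)
        rcases mid_le.1 (hu hq) with ⟨-, -, h⟩ | h | h
        · exact h
        · omega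
        · omega
      · refine mid_le.2 (Or.inr (Or.inl ⟨rfl, h, LowerSet.mem_sInf_iff.2 fun q hq => ?_⟩))
        rcases mid_le.1 (hu hq) with h | ⟨-, -, h⟩ | h
        · omega
        · exact h
        · omega
      · exact mid_le.2 (Or.inr (Or.inr h))
  · cases w with
    | top => exact ⟨_, h0, mid_lt_top⟩
    | bot => exact absurd hw (not_lt_bot' _)
    | mid m x p =>
      rcases mid_lt.1 hw with ⟨rfl, rfl, h⟩ | ⟨rfl, h, h'⟩ | h
      · obtain ⟨q, hq, hpq⟩ := sInf_lt_iff.1 h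
        exact ⟨_, hq, mid_lt.2 (Or.inl ⟨rfl, rfl, hpq⟩)⟩
      · rw [LowerSet.mem_sInf_iff] at h
        push Not at h
        obtain ⟨q, hq, hxq⟩ := h
        exact ⟨_, hq, mid_lt.2 (Or.inr (Or.inl ⟨rfl, hxq, h'⟩))⟩
      · exact ⟨_, h0, mid_lt.2 (Or.inr (Or.inr h))⟩

lemma mem_of_comp {C : Set Q} (hC : IsMaxChain (· ≤ ·) C) (w : Q)
    (h : ∀ c ∈ C, w ≤ c ∨ c ≤ w) : w ∈ C := by
  have h1 : IsChain (· ≤ ·) (insert w C) := hC.1.insert (fun c hc _ => h c hc)
  rw [hC.2 h1 (Set.subset_insert _ _)]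
  exact Set.mem_insert _ _

lemma witness {K : Set Q} (hK : IsMinimalCutset K) {k : Q} (hk : k ∈ K) :
    ∃ C, IsMaxChain (· ≤ ·) C ∧ k ∈ C ∧ ∀ w ∈ K, w ∈ C → w = k := by
  have h := hK.2 k hk
  unfold IsCutset at h
  push Not at h
  obtain ⟨C, hC, he⟩ := h
  have h2 : ∀ w ∈ K, w ∈ C → w = k := by
    intro w hw hwC
    by_contra hne
    have : w ∈ (K \ {k}) ∩ C := ⟨⟨hw, hne⟩, hwC⟩
    rw [he] at this
    exact this
  obtain ⟨w, hw, hwC⟩ := hK.1 C hC
  exact ⟨C, hC, h2 w hw hwC ▸ hwC, h2⟩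

def Free (K : Set Q) (m : ℤ) (x a b : ℝ) : Prop := ∀ p : LowerSet ℝ, a ∈ p → b ∉ p → mid m x p ∉ K

lemma free_dense {K : Set Q} (hK : IsMinimalCutset K) (m : ℤ) (x a b : ℝ) (hab : a < b) :
    ∃ a' b', a ≤ a' ∧ a' < b' ∧ b' ≤ b ∧ Free K m x a' b' := by
  by_cases hf : Free K m x a b
  · exact ⟨a, b, le_rfl, hab, le_rfl, hf⟩
  unfold Free at hf
  push Not at hf
  obtain ⟨p, hap, hbp, hk⟩ := hf
  obtain ⟨C, hC, hkC, hw⟩ := witness hK hk
  have hu : ∃ u, u ∉ p ∧ ∀ x' p', mid (m + 1) x' p' ∈ C → x' = u := by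
    by_cases h : ∃ x' p', mid (m + 1) x' p' ∈ C
    · obtain ⟨u, q, hq⟩ := h
      refine ⟨u, ?_, fun x' p' h' => ?_⟩
      · rcases hC.1.total hkC hq with h | h <;> rcases mid_le.1 h with h | h | h
        · omega
        · exact h.2.1
        all_goals omega
      · rcases hC.1.total h' hq with h | h <;> rcases mid_le.1 h with h | h | h
        · exact h.2.1
        · omega
        · omega
        · exact h.2.1.symm
        all_goals omega
    · exact ⟨b, hbp, fun x' p' h' => absurd ⟨x', p', h'⟩ h⟩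
  have hl : ∃ l, l ∈ p ∧ ∀ x' p', mid (m - 1) x' p' ∈ C → x' = l := by
    by_cases h : ∃ x' p', mid (m - 1) x' p' ∈ C
    · obtain ⟨u, q, hq⟩ := h
      refine ⟨u, ?_, fun x' p' h' => ?_⟩
      · rcases hC.1.total hq hkC with h | h <;> rcases mid_le.1 h with h | h | h
        · omega
        · exact h.2.2
        all_goals omega
      · rcases hC.1.total h' hq with h | h <;> rcases mid_le.1 h with h | h | h
        · exact h.2.1
        · omega
        · omega
        · exact h.2.1.symm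
        all_goals omega
    · exact ⟨a, hap, fun x' p' h' => absurd ⟨x', p', h'⟩ h⟩
  obtain ⟨u, hup, hu⟩ := hu
  obtain ⟨l, hlp, hl⟩ := hl
  have hin : ∀ q : LowerSet ℝ, l ∈ q → u ∉ q → mid m x q ∈ C := by
    intro q hlq huq
    apply mem_of_comp hC
    intro c hc
    cases c with
    | bot => exact Or.inr (bot_le' _)
    | top => exact Or.inl (le_top' _)
    | mid m' x' p' =>
      have same : m = m' → x = x' → mid m x q ≤ mid m' x' p' ∨ mid m' x' p' ≤ mid m x q := by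
        rintro rfl rfl
        rcases le_total q p' with h | h
        · exact Or.inl (mid_le.2 (Or.inl ⟨rfl, rfl, h⟩))
        · exact Or.inr (mid_le.2 (Or.inl ⟨rfl, rfl, h⟩))
      rcases hC.1.total hkC hc with h | h <;> rcases mid_le.1 h with h | h | h
      · exact same h.1 h.2.1
      · obtain ⟨rfl, h1, h2⟩ := h
        have := hu _ _ hc
        subst this
        exact Or.inl (mid_le.2 (Or.inr (Or.inl ⟨rfl, huq, h2⟩)))
      · exact Or.inl (mid_le.2 (Or.inr (Or.inr h)))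
      · exact same h.1.symm h.2.1.symm
      · obtain ⟨h0, h1, h2⟩ := h
        have e : m' = m - 1 := by omega
        subst e
        have := hl _ _ hc
        subst this
        exact Or.inr (mid_le.2 (Or.inr (Or.inl ⟨h0, h1, hlq⟩)))
      · exact Or.inr (mid_le.2 (Or.inr (Or.inr h)))
  have hl' : max l a ∈ p := by rcases max_choice l a with h | h <;> rw [h] <;> assumption
  have hu' : min u b ∉ p := by rcases min_choice u b with h | h <;> rw [h] <;> assumption
  have hlt : max l a < min u b := by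
    by_contra h
    exact hu' (p.lower (not_lt.1 h) hl')
  have hq : ∀ q : LowerSet ℝ, max l a ∈ q → min u b ∉ q → mid m x q ∈ K → q = p := by
    intro q h1 h2 h3
    have := hw _ h3 (hin q (q.lower (le_max_left _ _) h1) (fun h => h2 (q.lower (min_le_left _ _) h)))
    exact (mid.inj this).2.2
  obtain ⟨t, ht1, ht2⟩ := exists_between hlt
  by_cases htp : t ∈ p
  · refine ⟨max l a, t, le_max_right _ _, ht1, ht2.le.trans (min_le_right _ _), ?_⟩
    intro q h1 h2 h3
    have := hq q h1 (fun h => h2 (q.lower ht2.le h)) h3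
    subst this
    exact h2 htp
  · refine ⟨t, min u b, (le_max_right _ _).trans ht1.le, ht2, min_le_right _ _, ?_⟩
    intro q h1 h2 h3
    have := hq q (q.lower ht1.le h1) h2 h3
    subst this
    exact htp h1

lemma antichain (K : Set Q) (hK : IsMinimalCutset K) : IsAntichain (· ≤ ·) K := by
  by_cases hb : bot ∈ K
  · intro a ha b hb' hne
    obtain ⟨C, hC, -, h⟩ := witness hK ha
    obtain ⟨C', hC', -, h'⟩ := witness hK hb'
    have e1 := h bot hb (mem_of_comp hC _ fun c _ => Or.inl (bot_le' c))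
    have e2 := h' bot hb (mem_of_comp hC' _ fun c _ => Or.inl (bot_le' c))
    exact absurd (e1.symm.trans e2) hne
  by_cases ht : top ∈ K
  · intro a ha b hb' hne
    obtain ⟨C, hC, -, h⟩ := witness hK ha
    obtain ⟨C', hC', -, h'⟩ := witness hK hb'
    have e1 := h top ht (mem_of_comp hC _ fun c _ => Or.inr (le_top' c))
    have e2 := h' top ht (mem_of_comp hC' _ fun c _ => Or.inr (le_top' c))
    exact absurd (e1.symm.trans e2) hne
  exfalso
  obtain ⟨s, hs⟩ := Pool.Agent.H27.HiggsBaire.path (Free K)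
    (fun n x a b a' b' h1 h2 h p ha hb => h p (p.lower h1 ha) (fun hh => hb (p.lower h2 hh)))
    (free_dense hK)
  let M : Set Q := {w | w = bot ∨ w = top ∨
    ∃ n p, w = mid n (s n) p ∧ s (n - 1) ∈ p ∧ s (n + 1) ∉ p}
  have hel : ∀ n, mid n (s n) (LowerSet.Iic (s (n - 1))) ∈ M := by
    intro n
    refine Or.inr (Or.inr ⟨n, _, rfl, ?_, ?_⟩)
    · exact LowerSet.mem_Iic_iff.2 le_rfl
    · exact fun h => absurd (LowerSet.mem_Iic_iff.1 h) (not_le.2 (hs n).1)
  have hle : ∀ n n' (p p' : LowerSet ℝ), n < n' → s (n + 1) ∉ p → s (n' - 1) ∈ p' →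
      mid n (s n) p ≤ mid n' (s n') p' := by
    intro n n' p p' h h1 h2
    by_cases e : n' = n + 1
    · subst e
      exact mid_le.2 (Or.inr (Or.inl ⟨rfl, h1, by simpa using h2⟩))
    · exact mid_le.2 (Or.inr (Or.inr (by omega)))
  have hM : IsMaxChain (· ≤ ·) M := by
    constructor
    · intro a ha b hb _
      rcases ha with rfl | rfl | ⟨n, p, rfl, h1, h2⟩
      · exact Or.inl (bot_le' _)
      · exact Or.inr (le_top' _)
      rcases hb with rfl | rfl | ⟨n', p', rfl, h1', h2'⟩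
      · exact Or.inr (bot_le' _)
      · exact Or.inl (le_top' _)
      rcases lt_trichotomy n n' with h | rfl | h
      · exact Or.inl (hle _ _ _ _ h h2 h1')
      · rcases le_total p p' with h | h
        · exact Or.inl (mid_le.2 (Or.inl ⟨rfl, rfl, h⟩))
        · exact Or.inr (mid_le.2 (Or.inl ⟨rfl, rfl, h⟩))
      · exact Or.inr (hle _ _ _ _ h h2' h1)
    · intro T hT hMT
      refine Set.Subset.antisymm hMT fun w hw => ?_
      cases w with
      | bot => exact Or.inl rfl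
      | top => exact Or.inr (Or.inl rfl)
      | mid n x p =>
        have e : x = s n := by
          rcases hT.total hw (hMT (hel n)) with h | h <;> rcases mid_le.1 h with h | h | h
          · exact h.2.1
          · omega
          · omega
          · exact h.2.1.symm
          all_goals omega
        subst e
        refine Or.inr (Or.inr ⟨n, p, rfl, ?_, ?_⟩)
        · rcases hT.total (hMT (hel (n - 1))) hw with h | h <;> rcases mid_le.1 h with h | h | h
          · omega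
          · exact h.2.2
          all_goals omega
        · rcases hT.total hw (hMT (hel (n + 1))) with h | h <;> rcases mid_le.1 h with h | h | h
          · omega
          · exact h.2.1
          all_goals omega
  obtain ⟨w, hwK, hwM⟩ := hK.1 M hM
  rcases hwM with rfl | rfl | ⟨n, p, rfl, h1, h2⟩
  · exact hb hwK
  · exact ht hwK
  · exact (hs n).2 p h1 h2 hwK

lemma hasN : ContainsN Q := by
  have i0 : (0 : ℝ) ∈ LowerSet.Iic (0 : ℝ) := LowerSet.mem_Iic_iff.2 le_rfl
  have o0 : (0 : ℝ) ∉ LowerSet.Iio (0 : ℝ) := fun h => lt_irrefl _ (LowerSet.mem_Iio_iff.1 h)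
  have oi : LowerSet.Iio (0 : ℝ) < LowerSet.Iic 0 := by
    refine lt_of_le_of_ne (fun t ht => ?_) (fun h => o0 (h ▸ i0))
    exact LowerSet.mem_Iic_iff.2 (LowerSet.mem_Iio_iff.1 ht).le
  have hne : LowerSet.Iio (0 : ℝ) ≠ LowerSet.Iic 0 := oi.ne
  refine ⟨mid 1 0 (LowerSet.Iio 0), mid 0 0 (LowerSet.Iio 0), mid 1 0 (LowerSet.Iic 0),
    mid 0 0 (LowerSet.Iic 0), by simp, fun h => hne (mid.inj h).2.2, by simp, by simp,
    fun h => hne (mid.inj h).2.2, by simp,
    mid_lt.2 (Or.inl ⟨rfl, rfl, oi⟩), mid_lt.2 (Or.inr (Or.inl ⟨rfl, o0, i0⟩)),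
    mid_lt.2 (Or.inl ⟨rfl, rfl, oi⟩), ?_, ?_, ?_, ?_, ?_, ?_, ?_⟩
  · rintro ⟨z, h1, h2⟩
    cases z with
    | bot => exact not_lt_bot' _ h1
    | top => exact not_top_lt _ h2
    | mid m x p =>
      rcases mid_lt.1 h1 with ⟨rfl, rfl, h3⟩ | ⟨rfl, h3, h1'⟩ | h3 <;>
        rcases mid_lt.1 h2 with h2 | h2 | h2
      · omega
      · apply h3.not_ge
        intro t ht
        apply LowerSet.mem_Iio_iff.2
        by_contra h
        exact h2.2.1 (p.lower (not_lt.1 h) ht)
      · omega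
      · apply h2.2.2.not_ge
        intro t ht
        exact p.lower (LowerSet.mem_Iic_iff.1 ht) h1'
      all_goals omega
  all_goals
    intro h
    rcases mid_le.1 h with h | h | h
    all_goals first
      | omega
      | exact o0 h.2.2
      | exact h.2.1 i0

/-- Higgs' conjecture fails: a regular ordered set in which every minimal cutset is an antichain
and which contains an N. -/
theorem result : ∃ (P : Type) (_ : PartialOrder P), Regular P ∧
    (∀ K : Set P, IsMinimalCutset K → IsAntichain (· ≤ ·) K) ∧ ContainsN P :=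
  ⟨Q, inferInstance, fun C hC hne => ⟨sup_part C hC hne, inf_part C hC hne⟩, antichain, hasN⟩

end Pool.Agent.Results.MP_3b1797_co.Counter
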